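import Mathlib
import Pool.Agent.Helper70K1.HP.Clique

/-!
# `k`-CLIQUE needs small-depth circuits with `n ^ (⌈k / 2⌉ - ε)` gates

The graphs on the vertex set `Fin n` are given by their adjacency bits `adjBits`. Circuits have
NOT gates and AND and OR gates of unbounded fan-in, their size is the number of gates
(`DomAC0.Circuit`). A `Game` is a public-coin interactive proof with any number of rounds whose
verifier evaluates a circuit on the input at the end of the conversation; it is `Bounded d S g`
when these circuits have depth at most `d` and at most `S` gates and the prover sends at most `g`
bits.

Theorem. Let `k ≥ 5`. For every `ε > 0` there is `C` such that for `C d log (log n + g + 2) ≤ log n`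
every interactive proof for the graphs on `n` vertices without a clique of `k` vertices has
`S > n ^ (⌈k / 2⌉ - ε)`. In particular this holds (`g = 0`) for randomized circuits (with two-sided
error) that decide whether there is a `k`-clique, and for circuits of constant depth.

Idea of the proof. Hidden plants: a sparse random table of vectors with `D` digits in base `p` for
the `k` classes of `N` vertices; a plant is a `k`-tuple of vertices together with `k` vectors whose
sum is a fixed vector `t`. By restrictions and Moebius coefficients on the cube of the plants, a
small circuit of small depth does not see a plant unless one of its gates has a coefficient at a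
set of between `⌈k / 2⌉` and `2 ⌈k / 2⌉ - 2 < k` planted vertices, and each gate does this for at
most `N ^ (- ⌈k / 2⌉ + o (1))` of all plants. The `k` vectors have sum `t` if and only if
`|x 1 + ... + x k - t| ^ 2 = 0`, which is determined by the inner products of the pairs and by the
inner products with `t` (as in the reduction of `k`-SUM to `k`-CLIQUE of Abboud, Lewi and
Williams); the plants with the most frequent values of the inner products are the cliques of a
graph in which the adjacency of two vertices depends only on their own vectors.
-/

open SmallDepth DomAC0 Filter H70.HP

namespace Pool.Agent.Results.MP_ba3460_lc.SmallDepthCircuits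

theorem result (k : ℕ) (hk : 5 ≤ k) (ε : ℝ) (hε : 0 < ε) :
    ∃ C : ℝ, 0 < C ∧ ∀ n d g S : ℕ, 2 ≤ n → 1 ≤ d →
      C * (d * Real.log (Real.log n + g + 2)) ≤ Real.log n →
      ∀ V : Game (Pairs n), V.Bounded d S g →
      (∀ G : SimpleGraph (Fin n), G.CliqueFree k → 2 / 3 ≤ V.value (adjBits G)) →
      (∀ G : SimpleGraph (Fin n), ¬ G.CliqueFree k → V.value (adjBits G) ≤ 1 / 3) →
      (n : ℝ) ^ ((((k + 1) / 2 : ℕ) : ℝ) - ε) < S :=
  clique_game k hk ε hε

end Pool.Agent.Results.MP_ba3460_lc.SmallDepthCircuits
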