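import Pool.Agent.Helper80K2.Exact

/-!
# `p-CLIQUE` has no span programs of fpt size, over any field, with few negated edges

A span program over a field `F` has `s` rows: vectors which are labelled by literals `edge e is
present` or `edge e is absent`; it accepts a graph when its target vector is in the span of the
rows whose literals are true in the graph (`SpanProgram`, `SpanProgram.Accepts`, `literals`). It
is monotone when there are no negated literals. `negated Q` is the graph of the pairs of vertices
which occur in negated literals of `Q`, and `t` is the number of these pairs.

Theorem. Let `2 ≤ k ≤ n`, let `F` be any field. If a span program over `F` with `s` rows accepts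
exactly the graphs on `n` vertices which have a clique with `k` vertices, then
`n ^ (2 (k + 1)) ≤ 2 ^ (35 k ^ 2) * (2 t + n) ^ (k + 1) * s ^ 8`.

For monotone span programs (`t = 0`) this says `s ≥ n ^ ((k + 1) / 8) / 2 ^ (35 k ^ 2 / 8)`. So
there are no such programs of size `f k * n ^ c`; the same holds for programs with negations if
`t ≤ n ^ (2 - ε)`.

Idea of the proof: rank method. Fix `q = 2`, or `q = 3` if `F` has characteristic two. Consider the
linear system over `ZMod q` with a variable for every ordered pair in `Fin k × Fin k`, whose `i`-th
equation is the sum over the incidence vectors at `i`; its right-hand sides have sum one, so it has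
no solution. The values of the variables are encoded by a table `c`, which maps addresses in
`Fin (m + 1)` to `ZMod q`. The vertices of the `i`-th class are the lists of addresses of the
variables in the `i`-th equation. Accepted graphs: the cliques given by global lists `u` of
addresses. Rejected graphs: for a table `c`, the vertices whose equation is true are joined when
they agree on the common variables. The matrix `A u c`, a sum over all `y` with at most `k / 2`
nonzero entries of the character at `y` of the system, has rank at least `m ^ (k ^ 2)`, but on the
rectangles of one edge only the terms with exactly `k / 2` nonzero entries survive, and the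
rank of each of them is at most `(m + 1) ^ (k ^ 2 - g)` with `g = (k / 2) * (k - k / 2)`.
-/

namespace Pool.Agent.Results.MP_ba3460_lc.SpanPrograms

open Pool.Agent.Helper80K2

theorem result {F : Type*} [Field F] (k n s : ℕ) (hk : 2 ≤ k) (hkn : k ≤ n)
    (Q : SpanProgram F (Sym2 (Fin n) × Bool) s)
    (hQ : ∀ G : SimpleGraph (Fin n), Q.Accepts (literals G) ↔ ¬ G.CliqueFree k) :
    n ^ (2 * (k + 1)) ≤
      2 ^ (35 * k ^ 2) * (2 * (negated Q).edgeSet.ncard + n) ^ (k + 1) * s ^ 8 :=
  Exact.final_bound hk hkn Q hQ

end Pool.Agent.Results.MP_ba3460_lc.SpanPrograms
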