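import Pool.Agent.Helper41.TC.Gap

/-!
# `k`-clique, and its approximation, by families of read-once tree tensor networks

The input is a graph on `n` vertices, given by its `n (n - 1) / 2` Boolean edge variables.  A tree tensor network
reads every edge variable in at most one leaf; every inner node combines the vectors of its two children by an
arbitrary bilinear map, over an arbitrary field.  (Read-once ordered branching programs, span programs of this form
and matrix products are special cases.)  A family of such networks, each with its own tree, its own field and its own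
tensors, accepts a graph if at least one of its members has a non-zero output.

The theorem gives a lower bound `n ^ Ω(k)` for the number of networks times a power of their width, for families
that accept all graphs with a `k`-clique and reject all graphs without a clique of size `k / g`: such families
cannot be of fpt size, for any gap `g` (and even for `g` growing like a small power of `k`).
-/

set_option autoImplicit false

open Finset

namespace Pool.Agent.Results.MP_ba3460_lc.TensorNetworks

open Pool.Agent.TH700.PA Pool.Agent.Helper41.TC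

/-- A finite family (indexed by `R`) of read-once tree tensor networks whose inputs are the graphs on `Fin n`.  The
member `ρ` works over its own field `K ρ`, its vectors are indexed by `W ρ` (the width is the number of elements of
`W ρ`), and it has its own output vector. -/
structure Family (n : ℕ) where
  /-- the index set of the family -/
  R : Type
  [finR : Fintype R]
  /-- the fields -/
  K : R → Type
  [field : ∀ ρ, Field (K ρ)]
  /-- the index sets of the vectors -/
  W : R → Type
  [finW : ∀ ρ, Fintype (W ρ)]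
  /-- the networks -/
  net : ∀ ρ, Net (K ρ) (Edge n) Bool (W ρ)
  /-- the output vectors -/
  out : ∀ ρ, W ρ → K ρ
  /-- every edge variable is read at most once -/
  once : ∀ ρ e, (net ρ).reads e ≤ 1

attribute [instance] Family.finR Family.field Family.finW

/-- The family accepts the graph `x`: some member has a non-zero output. -/
def Family.Accepts {n : ℕ} (F : Family n) (x : Edge n → Bool) : Prop :=
  ∃ ρ, (F.net ρ).value (F.out ρ) x ≠ 0

/-- The family accepts all graphs with a `k`-clique and rejects all graphs all of whose cliques have fewer than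
`k / g` vertices.  (For `g = 1` it decides whether there is a `k`-clique.) -/
def Family.Separates {n : ℕ} (F : Family n) (g k : ℕ) : Prop :=
  (∀ x, (∃ Q, IsClique x Q ∧ Q.card = k) → F.Accepts x) ∧
    ∀ x, F.Accepts x → ∃ Q, IsClique x Q ∧ k ≤ g * Q.card

theorem total {n : ℕ} (F : Family n) {g k : ℕ} (hF : F.Separates g k) (hk : k ≤ n) (B : ℕ)
    (hB : ∀ ρ, ∀ s : Finset (Finset (Fin n)), (∀ S ∈ s, S.card = k ∧
      (F.net ρ).value (F.out ρ) (cg S) ≠ 0) → s.card ≤ B) :
    n ^ k ≤ k ^ k * (Fintype.card F.R * B) := by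
  classical
  refine (pow_le_choose k hk).trans (Nat.mul_le_mul_left _ ?_)
  have h1 : n.choose k = (powersetCard k (univ : Finset (Fin n))).card := by
    rw [card_powersetCard, card_univ, Fintype.card_fin]
  have key : ∀ S ∈ powersetCard k (univ : Finset (Fin n)), ∃ ρ,
      (F.net ρ).value (F.out ρ) (cg S) ≠ 0 := by
    intro S hS
    exact hF.1 (cg S) ⟨S, isClique_cg S, (mem_powersetCard.1 hS).2⟩
  rcases isEmpty_or_nonempty F.R with hR | hR
  · have h2 : powersetCard k (univ : Finset (Fin n)) = ∅ := by
      by_contra h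
      obtain ⟨S, hS⟩ := nonempty_iff_ne_empty.2 h
      obtain ⟨ρ, -⟩ := key S hS
      exact hR.false ρ
    rw [h1, h2]
    simp
  choose! c hc using key
  rw [h1, ← card_univ (α := F.R)]
  refine card_le_labels _ univ c (fun S _ => mem_univ _) B fun ρ _ => hB ρ _ fun S hS => ?_
  rw [mem_filter] at hS
  refine ⟨(mem_powersetCard.1 hS.1).2, ?_⟩
  rw [← hS.2]
  exact hc S hS.1

theorem exact_bound {n k : ℕ} (hk3 : 3 ≤ k) (hk : k ≤ n) (F : Family n) (hF : F.Separates 1 k)
    (w : ℕ) (hw : ∀ ρ, Fintype.card (F.W ρ) ≤ w) :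
    n ^ ((k + 8) / 9) ≤ k ^ k * n ^ 2 * (Fintype.card F.R * w) := by
  have h := total F hF hk (n ^ 2 * n ^ (k - (k + 8) / 9) * w) (by
    intro ρ s hs
    refine (exact_net (F.net ρ) (F.out ρ) (F.once ρ) hk3 (fun x hx => ?_) s hs).trans
      (Nat.mul_le_mul_left _ (hw ρ))
    obtain ⟨Q, hQ, hQk⟩ := hF.2 x ⟨ρ, hx⟩
    exact ⟨Q, hQ, by omega⟩)
  have h1 : n ^ k = n ^ (k - (k + 8) / 9) * n ^ ((k + 8) / 9) := by
    rw [← pow_add]
    congr 1
    omega
  have hn : 0 < n ^ (k - (k + 8) / 9) := Nat.pow_pos (by omega)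
  refine Nat.le_of_mul_le_mul_left ?_ hn
  rw [← h1]
  refine h.trans (le_of_eq ?_)
  ring

theorem gap_bound {n k g : ℕ} (hg : 1 ≤ g) (hgk : 8 * g < k) (hk : k ≤ n) (F : Family n)
    (hF : F.Separates g k) (w : ℕ) (hw : ∀ ρ, Fintype.card (F.W ρ) ≤ w) :
    n ^ (k / (2 * g * (32 * g ^ 2 + 1) ^ 2) + 1) ≤
      (2 * k) ^ k * (32 * g ^ 2 + 1) * n ^ (6 * (32 * g ^ 2 + 1)) * (Fintype.card F.R * w ^ 3) := by
  set t : ℕ := 32 * g ^ 2 + 1 with ht
  set D : ℕ := k / (2 * g * t ^ 2) with hD
  have hD1 : D + 1 ≤ k := by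
    have hDk : 2 * g * t ^ 2 * D ≤ k := Nat.mul_div_le _ _
    have h2 : 2 * D ≤ 2 * g * t ^ 2 * D := by
      refine Nat.mul_le_mul_right D ?_
      have : 1 ≤ g * t ^ 2 := Nat.mul_pos hg (by positivity)
      nlinarith
    omega
  have h := total F hF hk (n ^ (6 * t) * ((t * w ^ 3) * (2 ^ k * n ^ (k - (D + 1))))) (by
    intro ρ s hs
    refine (gap_net (F.net ρ) (F.out ρ) (F.once ρ) hg hgk (fun x hx => hF.2 x ⟨ρ, hx⟩) s hs).trans ?_
    have := Nat.pow_le_pow_left (hw ρ) 3
    gcongr)
  have h1 : n ^ k = n ^ (k - (D + 1)) * n ^ (D + 1) := by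
    rw [← pow_add]
    congr 1
    omega
  have hn : 0 < n ^ (k - (D + 1)) := Nat.pow_pos (by omega)
  refine Nat.le_of_mul_le_mul_left ?_ hn
  rw [← h1]
  refine h.trans (le_of_eq ?_)
  rw [mul_pow]
  ring

theorem no_fpt (g c : ℕ) (hg : 1 ≤ g) : ∃ k0, ∀ k, k0 ≤ k → ∀ C : ℕ, ∃ n0, ∀ n, n0 ≤ n →
    ∀ F : Family n, F.Separates g k → ∀ w, (∀ ρ, Fintype.card (F.W ρ) ≤ w) →
      C * n ^ c < Fintype.card F.R * w ^ 3 := by
  set t : ℕ := 32 * g ^ 2 + 1 with ht
  refine ⟨2 * g * t ^ 2 * (6 * t + c) + 8 * g + 1, fun k hk C =>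
    ⟨(2 * k) ^ k * t * C + k + 1, fun n hn F hF w hw => ?_⟩⟩
  have hD : 6 * t + c ≤ k / (2 * g * t ^ 2) := by
    rw [Nat.le_div_iff_mul_le (by positivity)]
    calc (6 * t + c) * (2 * g * t ^ 2) = 2 * g * t ^ 2 * (6 * t + c) := mul_comm _ _
      _ ≤ k := by omega
  have h := gap_bound hg (by omega) (by omega : k ≤ n) F hF w hw
  by_contra hcon
  rw [not_lt] at hcon
  have hn0 : 0 < n := by omega
  have h1 : n ^ (6 * t + c) * n ≤ n ^ (6 * t + c) * ((2 * k) ^ k * t * C) := by
    calc n ^ (6 * t + c) * n = n ^ (6 * t + c + 1) := (pow_succ _ _).symm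
      _ ≤ n ^ (k / (2 * g * t ^ 2) + 1) := Nat.pow_le_pow_right hn0 (by omega)
      _ ≤ (2 * k) ^ k * t * n ^ (6 * t) * (Fintype.card F.R * w ^ 3) := h
      _ ≤ (2 * k) ^ k * t * n ^ (6 * t) * (C * n ^ c) := Nat.mul_le_mul_left _ hcon
      _ = n ^ (6 * t + c) * ((2 * k) ^ k * t * C) := by
          rw [pow_add]
          ring
  have h2 := Nat.le_of_mul_le_mul_left h1 (Nat.pow_pos hn0)
  omega

/-- The network that checks whether all edges of a set are present. -/
theorem exists_and {n : ℕ} (E : Finset (Edge n)) (hE : E.Nonempty) :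
    ∃ T : Net ℚ (Edge n) Bool Unit, (∀ e, e ∈ E → T.reads e = 1) ∧ (∀ e, e ∉ E → T.reads e = 0) ∧
      ∀ x, ((∀ e ∈ E, x e = true) → T.eval x () = 1) ∧
        (¬ (∀ e ∈ E, x e = true) → T.eval x () = 0) := by
  classical
  induction hE using Finset.Nonempty.cons_induction with
  | singleton e =>
    refine ⟨.leaf e fun b _ => if b = true then 1 else 0, fun e' he' => ?_, fun e' he' => ?_,
      fun x => ⟨fun h => ?_, fun h => ?_⟩⟩
    · rw [mem_singleton] at he'
      unfold Net.reads
      exact if_pos he'.symm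
    · rw [mem_singleton] at he'
      unfold Net.reads
      exact if_neg fun h => he' h.symm
    · unfold Net.eval
      exact if_pos (h e (mem_singleton_self e))
    · unfold Net.eval
      refine if_neg fun h1 => h fun e' he' => ?_
      rw [mem_singleton] at he'
      rw [he']
      exact h1
  | cons e E he hE ih =>
    obtain ⟨T, hr1, hr0, hv⟩ := ih
    have h : ∀ e', (Net.node T (.leaf e fun b _ => if b = true then (1 : ℚ) else 0)
        fun _ _ _ => 1).reads e' = T.reads e' + (if e = e' then 1 else 0) := by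
      intro e'
      show T.reads e' + Net.reads e' (.leaf e _) = _
      unfold Net.reads
      split_ifs <;> rfl
    have h' : ∀ x, (Net.node T (.leaf e fun b _ => if b = true then (1 : ℚ) else 0)
        fun _ _ _ => 1).eval x () = T.eval x () * (if x e = true then 1 else 0) := by
      intro x
      show ∑ i, ∑ j, (1 : ℚ) * (T.eval x i * (if x e = true then 1 else 0)) = _
      simp only [univ_unique, sum_singleton, one_mul, PUnit.default_eq_unit]
    refine ⟨.node T (.leaf e fun b _ => if b = true then 1 else 0) fun _ _ _ => 1,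
      fun e' he' => ?_, fun e' he' => ?_, fun x => ⟨fun hx => ?_, fun hx => ?_⟩⟩
    · rw [h, mem_cons] at *
      rcases he' with rfl | he'
      · rw [hr0 _ he, if_pos rfl]
      · rw [hr1 _ he', if_neg]
        rintro rfl
        exact he he'
    · rw [mem_cons, not_or] at he'
      rw [h, hr0 _ he'.2, if_neg fun h => he'.1 h.symm]
    · rw [h', (hv x).1 fun e' he' => hx e' (mem_cons.2 (Or.inr he')),
        if_pos (hx e (mem_cons.2 (Or.inl rfl)))]
      norm_num
    · rw [h']
      by_cases h1 : x e = true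
      · rw [(hv x).2 fun h2 => hx fun e' he' => ?_]
        · norm_num
        · rw [mem_cons] at he'
          rcases he' with rfl | he'
          · exact h1
          · exact h2 e' he'
      · rw [if_neg h1]
        norm_num

theorem upper {n k : ℕ} (hk : 2 ≤ k) : ∃ F : Family n, F.Separates 1 k ∧
    Fintype.card F.R = n.choose k ∧ ∀ ρ, Fintype.card (F.W ρ) = 1 := by
  classical
  have key : ∀ S : {S : Finset (Fin n) // S.card = k}, ∃ T : Net ℚ (Edge n) Bool Unit,
      (∀ e, T.reads e ≤ 1) ∧ ∀ x, T.eval x () = if IsClique x S.1 then 1 else 0 := by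
    intro S
    have hne : (ed S.1).Nonempty := by
      rw [← card_pos]
      have h := card_ed S.1
      rw [S.2] at h
      nlinarith
    obtain ⟨T, hr1, hr0, hv⟩ := exists_and (ed S.1) hne
    refine ⟨T, fun e => ?_, fun x => ?_⟩
    · by_cases he : e ∈ ed S.1
      · rw [hr1 e he]
      · rw [hr0 e he]
        omega
    · have hiff : (∀ e ∈ ed S.1, x e = true) ↔ IsClique x S.1 :=
        ⟨fun h e h1 h2 => h e (mem_ed.2 ⟨h1, h2⟩), fun h e he => h e (mem_ed.1 he).1 (mem_ed.1 he).2⟩
      by_cases hx : IsClique x S.1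
      · rw [if_pos hx]
        exact (hv x).1 (hiff.2 hx)
      · rw [if_neg hx]
        exact (hv x).2 fun h => hx (hiff.1 h)
  choose T hr hv using key
  have hval : ∀ S x, (T S).value (fun _ => 1) x ≠ 0 ↔ IsClique x S.1 := by
    intro S x
    unfold Net.value
    simp only [univ_unique, sum_singleton, one_mul, PUnit.default_eq_unit]
    rw [hv]
    by_cases h : IsClique x S.1
    · simp [h]
    · simp [h]
  refine ⟨{ R := {S : Finset (Fin n) // S.card = k}, K := fun _ => ℚ, W := fun _ => Unit,
            net := T, out := fun _ _ => 1, once := hr }, ⟨?_, ?_⟩, ?_, ?_⟩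
  · rintro x ⟨Q, hQ, hQk⟩
    exact ⟨⟨Q, hQk⟩, (hval ⟨Q, hQk⟩ x).2 hQ⟩
  · rintro x ⟨S, hS⟩
    exact ⟨S.1, (hval S x).1 hS, by rw [S.2, one_mul]⟩
  · show Fintype.card {S : Finset (Fin n) // S.card = k} = n.choose k
    rw [Fintype.card_finset_len, Fintype.card_fin]
  · intro ρ
    exact Fintype.card_unit

/-- **Families of read-once tree tensor networks for `k`-clique and its approximation.**  `R` is the index set of the
family and `w` bounds the widths.

Lower bound: if the family accepts all graphs with a `k`-clique and rejects all graphs whose cliques are smaller than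
`k / g` (for `g = 1`: decides `k`-clique), `8 g < k ≤ n`, then with `t = 32 g ^ 2 + 1`:
`n ^ (⌊k / (2 g t ^ 2)⌋ + 1) ≤ (2 k) ^ k * t * n ^ (6 t) * (|R| * w ^ 3)`.  (See `no_fpt`: so there is no fpt size, and
`exact_bound` for a better exponent if `g = 1`.)

Matching upper bound: there are families of `n.choose k` networks of width one that decide `k`-clique. -/
theorem result :
    (∀ n k g : ℕ, 1 ≤ g → 8 * g < k → k ≤ n → ∀ F : Family n, F.Separates g k →
      ∀ w, (∀ ρ, Fintype.card (F.W ρ) ≤ w) →
        n ^ (k / (2 * g * (32 * g ^ 2 + 1) ^ 2) + 1) ≤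
          (2 * k) ^ k * (32 * g ^ 2 + 1) * n ^ (6 * (32 * g ^ 2 + 1)) *
            (Fintype.card F.R * w ^ 3)) ∧
    (∀ n k : ℕ, 2 ≤ k → ∃ F : Family n, F.Separates 1 k ∧
      Fintype.card F.R = n.choose k ∧ ∀ ρ, Fintype.card (F.W ρ) = 1) :=
  ⟨fun _ _ _ hg hgk h F hF w hw => gap_bound hg hgk h F hF w hw, fun _ _ h => upper h⟩

end Pool.Agent.Results.MP_ba3460_lc.TensorNetworks
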