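import Mathlib
import Pool.Agent.Helper70K1.HP.Hyper

/-!
# Weighted satisfiability of antimonotone `r`-CNF formulas, `4 ≤ r`, needs small-depth circuits with
`n ^ (k - ε)` gates

An `r`-uniform hypergraph on the vertex set `Fin n` is given by one bit for every set of `r`
vertices (`Edges n r → Bool`). It has a `k`-clique when there are `k` vertices all of whose
`r`-element subsets are edges (`HasClique`); in other words, when the antimonotone `r`-CNF formula
with a clause `¬ v 1 ∨ ... ∨ ¬ v r` for every non-edge is satisfied by an assignment of weight `k`.
For every fixed `r ≥ 2` this problem, parameterized by `k`, is `W[1]`-complete. Circuits have NOT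
gates and AND and OR gates of unbounded fan-in, their size is the number of gates
(`DomAC0.Circuit`). A `Game` is a public-coin interactive proof with any number of rounds whose
verifier evaluates a circuit on the input at the end of the conversation; it is `Bounded d S g`
when these circuits have depth at most `d` and at most `S` gates and the prover sends at most `g`
bits.

Theorem. Let `4 ≤ r < k`. For every `ε > 0` there is `C` such that for
`C d log (log n + g + 2) ≤ log n` every interactive proof for the `r`-uniform hypergraphs on `n`
vertices without `k`-clique has `S > n ^ (k - ε)`. In particular this holds (`g = 0`) for
randomized circuits (with two-sided error) that decide whether there is a `k`-clique, and for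
circuits of constant depth.
Exhaustive search by a circuit of depth two has `n choose k` AND gates, so the exponent `k` is
optimal.

Idea of the proof. Hidden plants: a sparse random table gives vectors with `D` digits in base `p` to
the pairs of vertices from different ones of `k` classes of `N` vertices; a plant consists of `k`
vertices, one of each class, and vectors for their pairs whose sum is a fixed vector `t`. A set of
pairs of classes is small if some class does not occur in it. The union of two small sets is never
the set of all pairs. Hence a small circuit of small depth that sees a plant has a gate with a
Moebius coefficient (on the cube of the planted pairs) at a set in which all `k` classes occur, but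
which is not the set of all pairs, and each gate has this property for at most
`N ^ (- k + o (1))` of all plants. The vectors have the sum `t` if and only if
`|x 1 + ... + x m - t| ^ 2 = 0`, which is determined by the inner products of two of them and of
each of them with `t`; two pairs of vertices have at most four vertices, so the inner products can
be checked by the edges of a `4`-uniform hypergraph.
-/

open SmallDepth DomAC0 Filter H70.HP

namespace Pool.Agent.Results.MP_ba3460_lc.TightHypercliqueBound

theorem result (r k : ℕ) (hr : 4 ≤ r) (hrk : r < k) (ε : ℝ) (hε : 0 < ε) :
    ∃ C : ℝ, 0 < C ∧ ∀ n d g S : ℕ, 2 ≤ n → 1 ≤ d →
      C * (d * Real.log (Real.log n + g + 2)) ≤ Real.log n →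
      ∀ V : Game (Edges n r), V.Bounded d S g →
      (∀ x, ¬ HasClique k x → 2 / 3 ≤ V.value x) →
      (∀ x, HasClique k x → V.value x ≤ 1 / 3) →
      (n : ℝ) ^ ((k : ℝ) - ε) < S :=
  hyper_game r k hr hrk ε hε

end Pool.Agent.Results.MP_ba3460_lc.TightHypercliqueBound
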